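import Mathlib

set_option autoImplicit false

namespace Pool.Agent.H837R3.KL

open MeasureTheory

/-- one coin that shows `true` with probability `x` -/
noncomputable def bern (x : unitInterval) : Measure Bool :=
  ENNReal.ofReal (x : ℝ) • Measure.dirac true + ENNReal.ofReal (1 - (x : ℝ)) • Measure.dirac false

/-- probability of the value `b` -/
noncomputable def pr (x : unitInterval) (b : Bool) : ℝ := if b then (x : ℝ) else 1 - (x : ℝ)

theorem pr_nonneg (x : unitInterval) (b : Bool) : 0 ≤ pr x b := by
  unfold pr
  split_ifs
  · exact x.2.1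
  · linarith [x.2.2]

theorem pr_add (x : unitInterval) : pr x true + pr x false = 1 := by
  simp [pr]

theorem bern_singleton (x : unitInterval) (b : Bool) : bern x {b} = ENNReal.ofReal (pr x b) := by
  cases b <;> simp [bern, pr]

instance (x : unitInterval) : IsProbabilityMeasure (bern x) := by
  constructor
  have h1 : (0 : ℝ) ≤ x := x.2.1
  have h2 : (0 : ℝ) ≤ 1 - x := by linarith [x.2.2]
  simp only [bern, Measure.add_apply, Measure.smul_apply, measure_univ, smul_eq_mul, mul_one]
  rw [← ENNReal.ofReal_add h1 h2]
  simp

/-- independent coins -/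
noncomputable def mu (p : ℕ → unitInterval) : Measure (ℕ → Bool) :=
  Measure.infinitePi (fun n => bern (p n))

instance (p : ℕ → unitInterval) : IsProbabilityMeasure (mu p) := by
  unfold mu; infer_instance

/-- cylinder sets -/
def Cyl (s : Finset ℕ) (a : ℕ → Bool) : Set (ℕ → Bool) := {A | ∀ k ∈ s, A k = a k}

theorem mu_cyl (p : ℕ → unitInterval) (s : Finset ℕ) (a : ℕ → Bool) :
    (mu p).real (Cyl s a) = ∏ k ∈ s, pr (p k) (a k) := by
  have h : Cyl s a = Set.pi (s : Set ℕ) (fun k => ({a k} : Set Bool)) := by
    ext A
    simp [Cyl, Set.mem_pi]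
  unfold Measure.real mu
  rw [h, Measure.infinitePi_pi _ (fun i _ => measurableSet_singleton _)]
  rw [ENNReal.toReal_prod]
  refine Finset.prod_congr rfl fun k _ => ?_
  rw [bern_singleton, ENNReal.toReal_ofReal (pr_nonneg _ _)]

theorem cyl_insert (p : ℕ → unitInterval) (s : Finset ℕ) (a : ℕ → Bool) (n : ℕ) (hn : n ∉ s)
    (b : Bool) : (mu p).real (Cyl (insert n s) (Function.update a n b)) =
      pr (p n) b * (mu p).real (Cyl s a) := by
  rw [mu_cyl, mu_cyl, Finset.prod_insert hn]
  congr 1
  · simp
  · refine Finset.prod_congr rfl fun k hk => ?_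
    rw [Function.update_of_ne]
    rintro rfl
    exact hn hk

/-- the run of the rule `next` on `A`, started after the bits `w` have been read at the places
`s` with capital `d`, reaches capital `C` within `T` steps -/
def Reach (next : List Bool → Option ℕ) (fac : List Bool → Bool → ℝ) (C : ℝ) :
    ℕ → Finset ℕ → List Bool → ℝ → (ℕ → Bool) → Prop
  | 0, _, _, d, _ => C ≤ d
  | T + 1, s, w, d, A => C ≤ d ∨ ∃ n, next w = some n ∧ n ∉ s ∧
      Reach next fac C T (insert n s) (w ++ [A n]) (d * fac w (A n)) A

theorem Reach.mono {next : List Bool → Option ℕ} {fac : List Bool → Bool → ℝ} {C : ℝ}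
    {A : ℕ → Bool} (T : ℕ) : ∀ (s : Finset ℕ) (w : List Bool) (d : ℝ),
    Reach next fac C T s w d A → Reach next fac C (T + 1) s w d A := by
  induction T with
  | zero => intro s w d h; exact Or.inl h
  | succ T ih =>
      intro s w d h
      rcases h with h | ⟨n, h1, h2, h3⟩
      · exact Or.inl h
      · exact Or.inr ⟨n, h1, h2, ih _ _ _ h3⟩

theorem ville_aux (p : ℕ → unitInterval) (next : List Bool → Option ℕ)
    (fac : List Bool → Bool → ℝ) (C : ℝ) (hC : 0 < C) (hf0 : ∀ w b, 0 ≤ fac w b)
    (hf : ∀ w n, next w = some n →
      pr (p n) true * fac w true + pr (p n) false * fac w false ≤ 1) (T : ℕ) :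
    ∀ (s : Finset ℕ) (a : ℕ → Bool) (w : List Bool) (d : ℝ), 0 ≤ d →
    (mu p).real (Cyl s a ∩ {A | Reach next fac C T s w d A}) ≤ (mu p).real (Cyl s a) * (d / C) := by
  induction T with
  | zero =>
      intro s a w d hd
      by_cases h : C ≤ d
      · have h1 : (1 : ℝ) ≤ d / C := (one_le_div hC).2 h
        calc (mu p).real (Cyl s a ∩ {A | Reach next fac C 0 s w d A})
            ≤ (mu p).real (Cyl s a) := measureReal_mono Set.inter_subset_left
          _ = (mu p).real (Cyl s a) * 1 := (mul_one _).symm
          _ ≤ _ := mul_le_mul_of_nonneg_left h1 measureReal_nonneg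
      · have : Cyl s a ∩ {A | Reach next fac C 0 s w d A} = ∅ := by
          ext A
          simp [Reach, h]
        rw [this, measureReal_empty]
        positivity
  | succ T ih =>
      intro s a w d hd
      by_cases h : C ≤ d
      · have h1 : (1 : ℝ) ≤ d / C := (one_le_div hC).2 h
        calc (mu p).real (Cyl s a ∩ {A | Reach next fac C (T + 1) s w d A})
            ≤ (mu p).real (Cyl s a) := measureReal_mono Set.inter_subset_left
          _ = (mu p).real (Cyl s a) * 1 := (mul_one _).symm
          _ ≤ _ := mul_le_mul_of_nonneg_left h1 measureReal_nonneg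
      · rcases hnw : next w with _ | n
        · have : Cyl s a ∩ {A | Reach next fac C (T + 1) s w d A} = ∅ := by
            ext A
            simp [Reach, h, hnw]
          rw [this, measureReal_empty]
          positivity
        · by_cases hns : n ∈ s
          · have : Cyl s a ∩ {A | Reach next fac C (T + 1) s w d A} = ∅ := by
              ext A
              simp [Reach, h, hnw, hns]
            rw [this, measureReal_empty]
            positivity
          · have hsub : Cyl s a ∩ {A | Reach next fac C (T + 1) s w d A} ⊆
                (Cyl (insert n s) (Function.update a n true) ∩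
                  {A | Reach next fac C T (insert n s) (w ++ [true]) (d * fac w true) A}) ∪
                (Cyl (insert n s) (Function.update a n false) ∩
                  {A | Reach next fac C T (insert n s) (w ++ [false]) (d * fac w false) A}) := by
              rintro A ⟨hA1, hA2⟩
              rcases hA2 with hA2 | ⟨n', h1, h2, h3⟩
              · exact absurd hA2 h
              · rw [hnw] at h1
                obtain rfl : n = n' := Option.some.inj h1
                have hcyl : ∀ b, A n = b → A ∈ Cyl (insert n s) (Function.update a n b) := by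
                  intro b hb k hk
                  rcases Finset.mem_insert.1 hk with hkn | hks
                  · rw [hkn]; simpa using hb
                  · have hne : k ≠ n := fun h => hns (h ▸ hks)
                    rw [Function.update_of_ne hne]
                    exact hA1 k hks
                cases hb : A n with
                | true =>
                    left
                    rw [hb] at h3
                    exact ⟨hcyl _ hb, h3⟩
                | false =>
                    right
                    rw [hb] at h3
                    exact ⟨hcyl _ hb, h3⟩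
            have e1 := ih (insert n s) (Function.update a n true) (w ++ [true])
              (d * fac w true) (mul_nonneg hd (hf0 _ _))
            have e2 := ih (insert n s) (Function.update a n false) (w ++ [false])
              (d * fac w false) (mul_nonneg hd (hf0 _ _))
            rw [cyl_insert p s a n hns] at e1 e2
            have e3 := hf w n hnw
            calc (mu p).real (Cyl s a ∩ {A | Reach next fac C (T + 1) s w d A})
                ≤ _ := measureReal_mono hsub
              _ ≤ _ := measureReal_union_le _ _
              _ ≤ _ := add_le_add e1 e2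
              _ = (mu p).real (Cyl s a) * (d / C) *
                  (pr (p n) true * fac w true + pr (p n) false * fac w false) := by ring
              _ ≤ (mu p).real (Cyl s a) * (d / C) * 1 :=
                  mul_le_mul_of_nonneg_left e3
                    (mul_nonneg measureReal_nonneg (div_nonneg hd hC.le))
              _ = _ := mul_one _

/-- Ville's inequality for adaptive reading of independent coins -/
theorem ville (p : ℕ → unitInterval) (next : List Bool → Option ℕ)
    (fac : List Bool → Bool → ℝ) (C : ℝ) (hC : 0 < C) (hf0 : ∀ w b, 0 ≤ fac w b)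
    (hf : ∀ w n, next w = some n →
      pr (p n) true * fac w true + pr (p n) false * fac w false ≤ 1) :
    mu p {A | ∃ T, Reach next fac C T ∅ [] 1 A} ≤ ENNReal.ofReal (1 / C) := by
  have h1 : {A | ∃ T, Reach next fac C T ∅ [] 1 A} =
      ⋃ T, {A | Reach next fac C T ∅ [] 1 A} := by
    ext A; simp
  have hmono : Monotone (fun T => {A | Reach next fac C T ∅ [] 1 A}) :=
    monotone_nat_of_le_succ fun T A hA => Reach.mono T _ _ _ hA
  rw [h1, hmono.measure_iUnion]
  refine iSup_le fun T => ?_
  have h2 := ville_aux p next fac C hC hf0 hf T ∅ (fun _ => true) [] 1 zero_le_one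
  have h3 : Cyl ∅ (fun _ => true) = Set.univ := by
    ext A; simp [Cyl]
  rw [h3, Set.univ_inter, probReal_univ, one_mul] at h2
  rw [← ENNReal.ofReal_toReal (measure_ne_top (mu p) {A | Reach next fac C T ∅ [] 1 A})]
  exact ENNReal.ofReal_le_ofReal h2

/-- bits read along the places `pos` -/
def hist (A : ℕ → Bool) (pos : ℕ → ℕ) (k : ℕ) : List Bool := List.ofFn (fun i : Fin k => A (pos i))

theorem hist_succ (A : ℕ → Bool) (pos : ℕ → ℕ) (k : ℕ) :
    hist A pos (k + 1) = hist A pos k ++ [A (pos k)] := by
  unfold hist
  rw [List.ofFn_succ_last]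
  simp

/-- the capital after `k` steps -/
def cap (fac : List Bool → Bool → ℝ) (A : ℕ → Bool) (pos : ℕ → ℕ) (k : ℕ) : ℝ :=
  ∏ i ∈ Finset.range k, fac (hist A pos i) (A (pos i))

theorem reach_of_run {next : List Bool → Option ℕ} {fac : List Bool → Bool → ℝ} {C : ℝ}
    {A : ℕ → Bool} {pos : ℕ → ℕ} (hinj : Function.Injective pos) (T : ℕ) :
    ∀ j : ℕ, (∀ k, k < j + T → next (hist A pos k) = some (pos k)) → C ≤ cap fac A pos (j + T) →
      Reach next fac C T ((Finset.range j).image pos) (hist A pos j) (cap fac A pos j) A := by
  induction T with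
  | zero => intro j _ h; exact h
  | succ T ih =>
      intro j hn h
      right
      refine ⟨pos j, hn j (by omega), ?_, ?_⟩
      · intro hmem
        obtain ⟨i, hi, hij⟩ := Finset.mem_image.1 hmem
        have := hinj hij
        rw [this] at hi
        simp at hi
      · have h1 := ih (j + 1) (fun k hk => hn k (by omega)) (by
          rw [show j + 1 + T = j + (T + 1) by ring]; exact h)
        rw [Finset.range_add_one, Finset.image_insert, hist_succ] at h1
        rw [cap, Finset.prod_range_succ] at h1
        exact h1

/-- almost surely the capital of a rule stays bounded along every run -/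
theorem ville_run (p : ℕ → unitInterval) (next : List Bool → Option ℕ)
    (fac : List Bool → Bool → ℝ) (C : ℝ) (hC : 0 < C) (hf0 : ∀ w b, 0 ≤ fac w b)
    (hf : ∀ w n, next w = some n →
      pr (p n) true * fac w true + pr (p n) false * fac w false ≤ 1) :
    mu p {A | ∃ pos : ℕ → ℕ, Function.Injective pos ∧ ∃ T,
      (∀ k, k < T → next (hist A pos k) = some (pos k)) ∧ C ≤ cap fac A pos T} ≤
      ENNReal.ofReal (1 / C) := by
  refine le_trans (measure_mono ?_) (ville p next fac C hC hf0 hf)
  rintro A ⟨pos, hinj, T, h1, h2⟩
  refine ⟨T, ?_⟩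
  have := reach_of_run (C := C) (fac := fac) hinj T 0 (by simpa using h1) (by simpa using h2)
  simpa [hist, cap] using this

theorem ville_ae (p : ℕ → unitInterval) (next : List Bool → Option ℕ)
    (fac : List Bool → Bool → ℝ) (hf0 : ∀ w b, 0 ≤ fac w b)
    (hf : ∀ w n, next w = some n →
      pr (p n) true * fac w true + pr (p n) false * fac w false ≤ 1) :
    ∀ᵐ A ∂(mu p), ∃ C : ℝ, 0 < C ∧ ∀ pos : ℕ → ℕ, Function.Injective pos →
      (∀ k, next (hist A pos k) = some (pos k)) → ∀ T, cap fac A pos T < C := by
  rw [ae_iff]
  by_contra hpos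
  obtain ⟨n, hn⟩ := ENNReal.exists_inv_two_pow_lt hpos
  have h1 := ville_run p next fac (2 ^ n) (by positivity) hf0 hf
  have h2 : mu p {A | ¬ ∃ C : ℝ, 0 < C ∧ ∀ pos : ℕ → ℕ, Function.Injective pos →
      (∀ k, next (hist A pos k) = some (pos k)) → ∀ T, cap fac A pos T < C} ≤
      ENNReal.ofReal (1 / 2 ^ n) := by
    refine le_trans (measure_mono ?_) h1
    intro A hA
    simp only [Set.mem_ofPred_eq, not_exists, not_and, not_forall, not_lt] at hA
    obtain ⟨pos, hinj, hrun, T, hT⟩ := hA (2 ^ n) (by positivity)
    exact ⟨pos, hinj, T, fun k _ => hrun k, hT⟩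
  have h3 : ENNReal.ofReal (1 / 2 ^ n) = (2⁻¹ : ENNReal) ^ n := by
    rw [one_div, ENNReal.ofReal_inv_of_pos (by positivity), ENNReal.ofReal_pow (by norm_num)]
    simp [ENNReal.inv_pow]
  rw [h3] at h2
  exact absurd (lt_of_lt_of_le hn h2) (lt_irrefl _)

end Pool.Agent.H837R3.KL
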