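import Mathlib
import Pool.Agent.H837R3.KL.Ville

set_option autoImplicit false

namespace Pool.Agent.H837R3.KL

open MeasureTheory Filter

/-- `true` is `1`, `false` is `-1` -/
def sg (b : Bool) : ℝ := if b then 1 else -1

theorem log_lower {x : ℝ} (h1 : -(1 / 2) ≤ x) : x - 2 * x ^ 2 ≤ Real.log (1 + x) := by
  have h2 : 0 < 1 + x := by linarith
  have h3 := Real.one_sub_inv_le_log_of_pos h2
  have h4 : x - 2 * x ^ 2 ≤ 1 - (1 + x)⁻¹ := by
    have : 1 - (1 + x)⁻¹ - (x - 2 * x ^ 2) = x ^ 2 * (1 + 2 * x) / (1 + x) := by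
      field_simp
      ring
    have h5 : 0 ≤ x ^ 2 * (1 + 2 * x) / (1 + x) :=
      div_nonneg (mul_nonneg (sq_nonneg _) (by linarith)) h2.le
    linarith
  linarith

/-- betting factor for a selected bit -/
noncomputable def bet (η : ℝ) (x : unitInterval) (b : Bool) : ℝ :=
  (1 + η * sg b) / (1 + η * (2 * (x : ℝ) - 1))

theorem den_pos {η : ℝ} (h : |η| ≤ 1 / 2) (x : unitInterval) : 0 < 1 + η * (2 * (x : ℝ) - 1) := by
  have h1 : |2 * (x : ℝ) - 1| ≤ 1 := by
    rw [abs_le]; constructor <;> linarith [x.2.1, x.2.2]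
  have h2 : |η * (2 * (x : ℝ) - 1)| ≤ 1 / 2 := by
    rw [abs_mul]
    calc |η| * |2 * (x : ℝ) - 1| ≤ (1 / 2) * 1 :=
          mul_le_mul h h1 (abs_nonneg _) (by norm_num)
      _ = 1 / 2 := by norm_num
  have := (abs_le.1 h2).1
  linarith

theorem num_pos {η : ℝ} (h : |η| ≤ 1 / 2) (b : Bool) : 0 < 1 + η * sg b := by
  have := abs_le.1 h
  cases b <;> simp [sg] <;> linarith

theorem bet_pos {η : ℝ} (h : |η| ≤ 1 / 2) (x : unitInterval) (b : Bool) : 0 < bet η x b :=
  div_pos (num_pos h b) (den_pos h x)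

theorem bet_sum {η : ℝ} (h : |η| ≤ 1 / 2) (x : unitInterval) :
    pr x true * bet η x true + pr x false * bet η x false = 1 := by
  have hne := (den_pos h x).ne'
  simp only [pr, bet, sg]
  simp only [if_true, Bool.false_eq_true, if_false]
  have e : (x : ℝ) * ((1 + η * 1) / (1 + η * (2 * (x : ℝ) - 1))) +
      (1 - (x : ℝ)) * ((1 + η * -1) / (1 + η * (2 * (x : ℝ) - 1))) =
      (1 + η * (2 * (x : ℝ) - 1)) / (1 + η * (2 * (x : ℝ) - 1)) := by ring
  rw [e, div_self hne]

theorem log_bet {η : ℝ} (h : |η| ≤ 1 / 2) (x : unitInterval) (b : Bool) :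
    η * sg b - 2 * η ^ 2 - η * (2 * (x : ℝ) - 1) ≤ Real.log (bet η x b) := by
  unfold bet
  rw [Real.log_div (num_pos h b).ne' (den_pos h x).ne']
  have h1 : η * sg b - 2 * (η * sg b) ^ 2 ≤ Real.log (1 + η * sg b) := by
    apply log_lower
    have := abs_le.1 h
    cases b <;> simp [sg] <;> linarith
  have h2 : Real.log (1 + η * (2 * (x : ℝ) - 1)) ≤ η * (2 * (x : ℝ) - 1) := by
    have := Real.log_le_sub_one_of_pos (den_pos h x)
    linarith
  have h3 : (η * sg b) ^ 2 = η ^ 2 := by
    cases b <;> simp [sg]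
  rw [h3] at h1
  linarith

section rule

variable (F : List Bool → Option (ℕ × Bool))

/-- next place -/
def nextOf (w : List Bool) : Option ℕ := (F w).map Prod.fst

/-- betting on the selected bits -/
noncomputable def facOf (p : ℕ → unitInterval) (η : ℝ) (w : List Bool) (b : Bool) : ℝ :=
  match F w with
  | some (n, true) => bet η (p n) b
  | _ => 1

theorem facOf_nonneg (p : ℕ → unitInterval) {η : ℝ} (h : |η| ≤ 1 / 2) (w : List Bool) (b : Bool) :
    0 ≤ facOf F p η w b := by
  unfold facOf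
  split
  · exact (bet_pos h _ _).le
  · exact zero_le_one

theorem facOf_sum (p : ℕ → unitInterval) {η : ℝ} (h : |η| ≤ 1 / 2) (w : List Bool) (n : ℕ)
    (hn : nextOf F w = some n) :
    pr (p n) true * facOf F p η w true + pr (p n) false * facOf F p η w false ≤ 1 := by
  unfold nextOf at hn
  unfold facOf
  rcases hw : F w with _ | ⟨n', c⟩
  · rw [hw] at hn; simp at hn
  · rw [hw] at hn
    simp only [Option.map_some, Option.some.injEq] at hn
    subst hn
    cases c with
    | true => exact (bet_sum h (p n')).le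
    | false => simp only [mul_one]; exact (pr_add _).le

end rule

theorem filter_range_nth (sel : ℕ → Bool) (hinf : Set.Infinite {k : ℕ | sel k = true}) (m : ℕ) :
    (Finset.range (Nat.nth (fun k => sel k = true) m)).filter (fun k => sel k = true) =
      (Finset.range m).image (Nat.nth (fun k => sel k = true)) := by
  ext i
  simp only [Finset.mem_filter, Finset.mem_range, Finset.mem_image]
  constructor
  · rintro ⟨h1, h2⟩
    obtain ⟨j, hj⟩ := (Nat.exists_lt_card_nth_eq (p := fun k => sel k = true) h2)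
    refine ⟨j, ?_, hj.2⟩
    rw [← hj.2] at h1
    exact (Nat.nth_strictMono hinf).lt_iff_lt.1 h1
  · rintro ⟨j, h1, rfl⟩
    exact ⟨(Nat.nth_strictMono hinf) h1, Nat.nth_mem_of_infinite hinf j⟩

/-- number of ones minus number of zeros -/
theorem sum_sg (X : ℕ → Bool) (m : ℕ) :
    ∑ j ∈ Finset.range m, sg (X j) =
      2 * (((Finset.range m).filter (fun j => X j = true)).card : ℝ) - m := by
  induction m with
  | zero => simp
  | succ m ih =>
      rw [Finset.sum_range_succ, ih, Finset.range_add_one, Finset.filter_insert]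
      cases h : X m with
      | true =>
          simp only [if_true, sg]
          rw [Finset.card_insert_of_notMem (by simp)]
          push_cast
          ring
      | false =>
          simp only [Bool.false_eq_true, if_false, sg]
          push_cast
          ring

theorem cap_eq (F : List Bool → Option (ℕ × Bool)) (p : ℕ → unitInterval) (η : ℝ)
    (A : ℕ → Bool) (pos : ℕ → ℕ) (sel : ℕ → Bool)
    (hrun : ∀ k, F (hist A pos k) = some (pos k, sel k))
    (hinf : Set.Infinite {k : ℕ | sel k = true}) (m : ℕ) :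
    cap (facOf F p η) A pos (Nat.nth (fun k => sel k = true) m) =
      ∏ j ∈ Finset.range m, bet η (p (pos (Nat.nth (fun k => sel k = true) j)))
        (A (pos (Nat.nth (fun k => sel k = true) j))) := by
  unfold cap
  have h1 : ∀ i, facOf F p η (hist A pos i) (A (pos i)) =
      if sel i = true then bet η (p (pos i)) (A (pos i)) else 1 := by
    intro i
    unfold facOf
    rw [hrun i]
    cases h : sel i <;> simp
  simp_rw [h1]
  rw [← Finset.prod_filter, filter_range_nth sel hinf m, Finset.prod_image]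
  intro a _ b _ hab
  exact (Nat.nth_strictMono hinf).injective hab

/-- boundedness of the capitals gives the law of large numbers -/
theorem lln_of_bounded (p : ℕ → unitInterval)
    (hp : Tendsto (fun n => (p n : ℝ)) atTop (nhds (1 / 2)))
    (X : ℕ → Bool) (q : ℕ → ℕ) (hq : Function.Injective q)
    (hb : ∀ (r : ℕ) (s : Bool), ∃ C : ℝ, ∀ m,
      ∏ j ∈ Finset.range m, bet (sg s / (r + 2)) (p (q j)) (X j) < C) :
    Tendsto (fun m : ℕ => (((Finset.range m).filter (fun j => X j = true)).card : ℝ) / (m : ℝ))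
      atTop (nhds (1 / 2 : ℝ)) := by
  -- the averages of the biases tend to zero
  have hpq : Tendsto (fun j => 2 * (p (q j) : ℝ) - 1) atTop (nhds 0) := by
    have h1 : Tendsto q atTop atTop := by
      have := hq.tendsto_cofinite
      rwa [Nat.cofinite_eq_atTop] at this
    have h2 := ((hp.comp h1).const_mul 2).sub_const 1
    norm_num at h2
    exact h2
  have hces : Tendsto (fun m : ℕ => (m : ℝ)⁻¹ * ∑ j ∈ Finset.range m, (2 * (p (q j) : ℝ) - 1))
      atTop (nhds 0) := hpq.cesaro
  have hinv : Tendsto (fun m : ℕ => (m : ℝ)⁻¹) atTop (nhds 0) :=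
    tendsto_inv_atTop_nhds_zero_nat
  set avg : ℕ → ℝ := fun m => (m : ℝ)⁻¹ * ∑ j ∈ Finset.range m, (2 * (p (q j) : ℝ) - 1) with havg
  set cnt : ℕ → ℝ := fun m => (((Finset.range m).filter (fun j => X j = true)).card : ℝ) with hcnt
  -- main estimate
  have key : ∀ (r : ℕ) (s : Bool), ∀ᶠ m : ℕ in atTop,
      sg s * (2 * (cnt m / m) - 1) ≤ 6 / ((r : ℝ) + 2) := by
    intro r s
    obtain ⟨C, hC⟩ := hb r s
    set η : ℝ := sg s / ((r : ℝ) + 2) with hη
    have hr : (0 : ℝ) < (r : ℝ) + 2 := by positivity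
    have hsq : sg s ^ 2 = 1 := by cases s <;> simp [sg]
    have hηabs : |η| ≤ 1 / 2 := by
      rw [hη, abs_div, abs_of_pos hr]
      have : |sg s| = 1 := by cases s <;> simp [sg]
      rw [this]
      apply one_div_le_one_div_of_le (by norm_num)
      have : (0 : ℝ) ≤ r := Nat.cast_nonneg r
      linarith
    have hC0 : 0 < C := by
      have := hC 0
      simp at this
      linarith
    have hsum : ∀ m : ℕ, η * (2 * cnt m - m) - m * (2 * η ^ 2) -
        η * ∑ j ∈ Finset.range m, (2 * (p (q j) : ℝ) - 1) ≤ Real.log C := by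
      intro m
      have h1 : ∑ j ∈ Finset.range m, (η * sg (X j) - 2 * η ^ 2 - η * (2 * (p (q j) : ℝ) - 1)) ≤
          Real.log C := by
        calc _ ≤ ∑ j ∈ Finset.range m, Real.log (bet η (p (q j)) (X j)) :=
              Finset.sum_le_sum fun j _ => log_bet hηabs _ _
          _ = Real.log (∏ j ∈ Finset.range m, bet η (p (q j)) (X j)) :=
              (Real.log_prod fun j _ => (bet_pos hηabs _ _).ne').symm
          _ ≤ Real.log C := Real.log_le_log
              (Finset.prod_pos fun j _ => bet_pos hηabs _ _) (hC m).le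
      rw [Finset.sum_sub_distrib, Finset.sum_sub_distrib, ← Finset.mul_sum, ← Finset.mul_sum,
        sum_sg, Finset.sum_const, Finset.card_range, nsmul_eq_mul, ← Finset.mul_sum] at h1
      have h2 : (cnt m : ℝ) = (((Finset.range m).filter (fun j => X j = true)).card : ℝ) := rfl
      rw [h2]
      linarith
    have e1 : ∀ᶠ m : ℕ in atTop, |avg m| ≤ 1 / ((r : ℝ) + 2) := by
      have := hces.abs
      rw [abs_zero] at this
      exact (this.eventually (gt_mem_nhds (show (0 : ℝ) < 1 / ((r : ℝ) + 2) by positivity))).mono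
        fun m hm => hm.le
    have e2 : ∀ᶠ m : ℕ in atTop, |Real.log C * (m : ℝ)⁻¹| ≤ 1 / ((r : ℝ) + 2) ^ 2 := by
      have h := (hinv.const_mul (Real.log C)).abs
      rw [mul_zero, abs_zero] at h
      exact (h.eventually (gt_mem_nhds (show (0 : ℝ) < 1 / ((r : ℝ) + 2) ^ 2 by positivity))).mono
        fun m hm => hm.le
    filter_upwards [e1, e2, eventually_gt_atTop 0] with m h1 h2 h3
    have hm : (0 : ℝ) < m := by exact_mod_cast h3
    have h4 := hsum m
    have h5 : η * (2 * (cnt m / m) - 1) ≤ 2 * η ^ 2 + η * avg m + Real.log C * (m : ℝ)⁻¹ := by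
      have h6 := mul_le_mul_of_nonneg_right h4 (inv_pos.2 hm).le
      have h7 : (η * (2 * cnt m - m) - m * (2 * η ^ 2) -
        η * ∑ j ∈ Finset.range m, (2 * (p (q j) : ℝ) - 1)) * (m : ℝ)⁻¹ =
          η * (2 * (cnt m / m) - 1) - 2 * η ^ 2 - η * avg m := by
        simp only [havg]
        field_simp
      linarith
    -- multiply by (r+2)
    have h8 : sg s * (2 * (cnt m / m) - 1) = ((r : ℝ) + 2) * (η * (2 * (cnt m / m) - 1)) := by
      rw [hη]; field_simp
    have h9 : η ^ 2 = 1 / ((r : ℝ) + 2) ^ 2 := by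
      rw [hη, div_pow, hsq]
    have h10 : η * avg m ≤ 1 / ((r : ℝ) + 2) ^ 2 := by
      have a1 : η * avg m ≤ |η| * |avg m| := by
        rw [← abs_mul]; exact le_abs_self _
      have a2 : |η| = 1 / ((r : ℝ) + 2) := by
        rw [hη, abs_div, abs_of_pos hr]
        have : |sg s| = 1 := by cases s <;> simp [sg]
        rw [this]
      have a3 : |η| * |avg m| ≤ 1 / ((r : ℝ) + 2) * (1 / ((r : ℝ) + 2)) := by
        rw [a2]
        exact mul_le_mul_of_nonneg_left h1 (by positivity)
      have a4 : 1 / ((r : ℝ) + 2) * (1 / ((r : ℝ) + 2)) = 1 / ((r : ℝ) + 2) ^ 2 := by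
        field_simp
      linarith
    have h11 := (abs_le.1 h2).2
    rw [h8]
    have h12 : η * (2 * (cnt m / m) - 1) ≤ 6 / ((r : ℝ) + 2) ^ 2 := by
      rw [h9] at h5
      have : (6 : ℝ) / ((r : ℝ) + 2) ^ 2 = 6 * (1 / ((r : ℝ) + 2) ^ 2) := by ring
      rw [this]
      have hpos : (0 : ℝ) < 1 / ((r : ℝ) + 2) ^ 2 := by positivity
      linarith
    calc ((r : ℝ) + 2) * (η * (2 * (cnt m / m) - 1)) ≤ ((r : ℝ) + 2) * (6 / ((r : ℝ) + 2) ^ 2) :=
          mul_le_mul_of_nonneg_left h12 hr.le
      _ = 6 / ((r : ℝ) + 2) := by field_simp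
  -- conclusion
  rw [Metric.tendsto_atTop]
  intro ε hε
  obtain ⟨r, hr⟩ := exists_nat_gt (6 / ε)
  have hr2 : 6 / ((r : ℝ) + 2) < ε := by
    have h0 : (0 : ℝ) < (r : ℝ) + 2 := by positivity
    rw [div_lt_iff₀ h0]
    rw [div_lt_iff₀ hε] at hr
    nlinarith
  have h1 := (key r true).and (key r false)
  obtain ⟨N, hN⟩ := eventually_atTop.1 h1
  refine ⟨N, fun m hm => ?_⟩
  obtain ⟨h2, h3⟩ := hN m hm
  simp only [sg, if_true, Bool.false_eq_true, if_false] at h2 h3
  rw [Real.dist_eq, abs_lt]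
  constructor
  · show -ε < cnt m / m - 1 / 2
    linarith
  · show cnt m / m - 1 / 2 < ε
    linarith

/-- fairness of the sequence `A` for the rule `F` -/
def Fair (F : List Bool → Option (ℕ × Bool)) (A : ℕ → Bool) : Prop :=
  ∀ (pos : ℕ → ℕ) (sel : ℕ → Bool), (∀ k, F (hist A pos k) = some (pos k, sel k)) →
    Function.Injective pos → Set.Infinite {k : ℕ | sel k = true} →
    Tendsto (fun m : ℕ => (((Finset.range m).filter
      (fun j => A (pos (Nat.nth (fun k => sel k = true) j)) = true)).card : ℝ) / (m : ℝ))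
      atTop (nhds (1 / 2 : ℝ))

theorem ae_fair (p : ℕ → unitInterval)
    (hp : Tendsto (fun n => (p n : ℝ)) atTop (nhds (1 / 2)))
    (F : List Bool → Option (ℕ × Bool)) : ∀ᵐ A ∂(mu p), Fair F A := by
  have h : ∀ᵐ A ∂(mu p), ∀ (r : ℕ) (s : Bool), ∃ C : ℝ, 0 < C ∧ ∀ pos : ℕ → ℕ,
      Function.Injective pos → (∀ k, nextOf F (hist A pos k) = some (pos k)) →
      ∀ T, cap (facOf F p (sg s / (r + 2))) A pos T < C := by
    rw [ae_all_iff]
    intro r
    rw [ae_all_iff]
    intro s
    have hη : |sg s / ((r : ℝ) + 2)| ≤ 1 / 2 := by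
      have hr : (0 : ℝ) < (r : ℝ) + 2 := by positivity
      rw [abs_div, abs_of_pos hr]
      have : |sg s| = 1 := by cases s <;> simp [sg]
      rw [this]
      apply one_div_le_one_div_of_le (by norm_num)
      have : (0 : ℝ) ≤ r := Nat.cast_nonneg r
      linarith
    exact ville_ae p (nextOf F) (facOf F p (sg s / (r + 2))) (facOf_nonneg F p hη)
      (facOf_sum F p hη)
  filter_upwards [h] with A hA
  intro pos sel hrun hinj hinf
  refine lln_of_bounded p hp (fun j => A (pos (Nat.nth (fun k => sel k = true) j)))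
    (fun j => pos (Nat.nth (fun k => sel k = true) j))
    (hinj.comp (Nat.nth_strictMono hinf).injective) ?_
  intro r s
  obtain ⟨C, _, hC⟩ := hA r s
  refine ⟨C, fun m => ?_⟩
  have h1 := hC pos hinj (fun k => by simp [nextOf, hrun k]) (Nat.nth (fun k => sel k = true) m)
  rwa [cap_eq F p _ A pos sel hrun hinf m] at h1

end Pool.Agent.H837R3.KL
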