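import Mathlib
import Pool.Agent.H837R3.KL.LLN

set_option autoImplicit false

namespace Pool.Agent.H837R3.KL

open MeasureTheory Filter Encodable

/-- bits read so far when one walks along the path -/
def pre (A : ℕ → Bool) : ℕ → List Bool
  | 0 => []
  | k + 1 => pre A k ++ [A (encode (pre A k))]

/-- places of the path -/
def posA (A : ℕ → Bool) (k : ℕ) : ℕ := encode (pre A k)

/-- bits of the path -/
def pathB (A : ℕ → Bool) (k : ℕ) : Bool := A (posA A k)

theorem length_pre (A : ℕ → Bool) (k : ℕ) : (pre A k).length = k := by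
  induction k with
  | zero => rfl
  | succ k ih => simp [pre, ih]

theorem hist_posA (A : ℕ → Bool) (k : ℕ) : hist A (posA A) k = pre A k := by
  induction k with
  | zero => rfl
  | succ k ih => rw [hist_succ, ih]; rfl

theorem posA_inj (A : ℕ → Bool) : Function.Injective (posA A) := by
  intro a b h
  have h1 : pre A a = pre A b := encode_injective h
  have h2 := congrArg List.length h1
  rwa [length_pre, length_pre] at h2

theorem pre_getD (A : ℕ → Bool) (k i : ℕ) (h : i < k) : (pre A k).getD i false = pathB A i := by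
  rw [← hist_posA]
  unfold hist
  rw [List.getD_eq_getElem?_getD, List.getElem?_ofFn]
  simp [h, pathB]

/-- the size of the bias in block `j` -/
noncomputable def bet1 (j : ℕ) : ℝ := Real.sqrt (1 / Real.sqrt ((j : ℝ) + 2))

theorem bet1_sq (j : ℕ) : bet1 j ^ 2 = 1 / Real.sqrt ((j : ℝ) + 2) := by
  unfold bet1
  rw [Real.sq_sqrt]
  positivity

theorem bet1_pos (j : ℕ) : 0 < bet1 j := by
  unfold bet1; positivity

theorem bet1_lt (j : ℕ) : bet1 j < 1 := by
  have h1 : (1 : ℝ) < Real.sqrt ((j : ℝ) + 2) := by
    rw [Real.lt_sqrt (by norm_num)]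
    have : (0 : ℝ) ≤ j := Nat.cast_nonneg j
    linarith
  have h2 : bet1 j ^ 2 < 1 := by
    rw [bet1_sq, div_lt_one (by linarith)]
    exact h1
  nlinarith [bet1_pos j]

theorem tendsto_bet1 : Tendsto bet1 atTop (nhds 0) := by
  have h1 : Tendsto (fun j : ℕ => (j : ℝ) + 2) atTop atTop :=
    tendsto_atTop_add_const_right _ _ tendsto_natCast_atTop_atTop
  have h2 : Tendsto (fun j : ℕ => Real.sqrt ((j : ℝ) + 2)) atTop atTop :=
    Real.tendsto_sqrt_atTop.comp h1
  have h3 : Tendsto (fun j : ℕ => 1 / Real.sqrt ((j : ℝ) + 2)) atTop (nhds 0) := by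
    simp only [one_div]
    exact tendsto_inv_atTop_zero.comp h2
  have h4 := (Real.continuous_sqrt.tendsto 0).comp h3
  rw [Real.sqrt_zero] at h4
  exact h4

theorem bound_pow (j : ℕ) : (1 - bet1 j ^ 2) ^ j ≤ Real.exp 2 * 24 / ((j : ℝ) + 2) ^ 2 := by
  set x := Real.sqrt ((j : ℝ) + 2) with hx
  have hxpos : 0 < x := by positivity
  have hx2 : x ^ 2 = (j : ℝ) + 2 := Real.sq_sqrt (by positivity)
  have hx1 : 1 < x := by
    rw [hx, Real.lt_sqrt (by norm_num)]
    have : (0 : ℝ) ≤ j := Nat.cast_nonneg j
    linarith
  have h0 : 0 ≤ 1 - bet1 j ^ 2 := by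
    rw [bet1_sq, ← hx]
    have : 1 / x ≤ 1 := by rw [div_le_one hxpos]; exact hx1.le
    linarith
  have h1 : 1 - bet1 j ^ 2 ≤ Real.exp (-(1 / x)) := by
    rw [bet1_sq, ← hx]
    have := Real.add_one_le_exp (-(1 / x))
    linarith
  have h2 : (1 - bet1 j ^ 2) ^ j ≤ Real.exp (-(j / x)) := by
    calc (1 - bet1 j ^ 2) ^ j ≤ Real.exp (-(1 / x)) ^ j := pow_le_pow_left₀ h0 h1 j
      _ = Real.exp (-(j / x)) := by
          rw [← Real.exp_nat_mul]
          congr 1
          ring
  have h3 : x - 2 ≤ j / x := by
    rw [le_div_iff₀ hxpos]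
    nlinarith
  have h4 : Real.exp (-(j / x)) ≤ Real.exp 2 * Real.exp (-x) := by
    rw [← Real.exp_add]
    apply Real.exp_le_exp.2
    linarith
  have h5 : Real.exp (-x) ≤ 24 / ((j : ℝ) + 2) ^ 2 := by
    have h6 := Real.pow_div_factorial_le_exp x hxpos.le 4
    have h7 : x ^ 4 = ((j : ℝ) + 2) ^ 2 := by rw [← hx2]; ring
    rw [h7] at h6
    have h8 : (0 : ℝ) < ((j : ℝ) + 2) ^ 2 := by positivity
    rw [Real.exp_neg, inv_le_comm₀ (Real.exp_pos _) (by positivity)]
    have h9 : ((Nat.factorial 4 : ℕ) : ℝ) = 24 := by norm_num [Nat.factorial]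
    rw [h9] at h6
    rw [inv_div]
    exact h6
  calc (1 - bet1 j ^ 2) ^ j ≤ Real.exp (-(j / x)) := h2
    _ ≤ Real.exp 2 * Real.exp (-x) := h4
    _ ≤ Real.exp 2 * (24 / ((j : ℝ) + 2) ^ 2) :=
        mul_le_mul_of_nonneg_left h5 (Real.exp_pos _).le
    _ = _ := by ring

theorem summable_pow : Summable (fun j : ℕ => (1 - bet1 j ^ 2) ^ j) := by
  have h1 : Summable (fun j : ℕ => Real.exp 2 * 24 / ((j : ℝ) + 2) ^ 2) := by
    have h2 : Summable (fun j : ℕ => 1 / ((j : ℝ)) ^ 2) :=
      Real.summable_one_div_nat_pow.2 (by norm_num)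
    have h3 := (summable_nat_add_iff 2).2 h2
    have h4 := h3.mul_left (Real.exp 2 * 24)
    refine h4.congr fun j => ?_
    push_cast
    ring
  refine Summable.of_nonneg_of_le (fun j => ?_) bound_pow h1
  apply pow_nonneg
  have := bet1_lt j
  have := bet1_pos j
  nlinarith

/-- the bias of the coin at the node `u`, as a real number -/
noncomputable def biasR (u : List Bool) : ℝ :=
  if Nat.sqrt u.length * Nat.sqrt u.length = u.length then 1 / 2
  else (1 + bet1 (Nat.sqrt u.length) *
    sg (u.getD (Nat.sqrt u.length * Nat.sqrt u.length) false)) / 2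

theorem biasR_mem (u : List Bool) : biasR u ∈ Set.Icc (0 : ℝ) 1 := by
  unfold biasR
  have h1 := bet1_pos (Nat.sqrt u.length)
  have h2 := bet1_lt (Nat.sqrt u.length)
  split_ifs
  · constructor <;> norm_num
  · cases u.getD (Nat.sqrt u.length * Nat.sqrt u.length) false <;>
      simp only [sg, if_true, Bool.false_eq_true, if_false] <;> constructor <;> linarith

/-- the bias of the coin at the node `u` -/
noncomputable def bias (u : List Bool) : unitInterval := ⟨biasR u, biasR_mem u⟩

/-- the bias of the coin at the place `N` -/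
noncomputable def pB (N : ℕ) : unitInterval :=
  match decode₂ (List Bool) N with
  | some u => bias u
  | none => bias []

theorem pB_encode (u : List Bool) : pB (encode u) = bias u := by
  unfold pB
  rw [encodek₂]

theorem abs_biasR (u : List Bool) : |biasR u - 1 / 2| ≤ bet1 (Nat.sqrt u.length) := by
  unfold biasR
  have h1 := bet1_pos (Nat.sqrt u.length)
  split_ifs
  · simp [h1.le]
  · rw [abs_le]
    cases u.getD (Nat.sqrt u.length * Nat.sqrt u.length) false <;>
      simp only [sg, if_true, Bool.false_eq_true, if_false] <;> constructor <;> linarith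

theorem tendsto_pB : Tendsto (fun N => (pB N : ℝ)) atTop (nhds (1 / 2)) := by
  rw [← Nat.cofinite_eq_atTop, Metric.tendsto_nhds]
  intro ε hε
  obtain ⟨J, hJ⟩ := eventually_atTop.1 (tendsto_bet1.eventually (gt_mem_nhds hε))
  have hfin : Set.Finite ((encode : List Bool → ℕ) '' {u : List Bool | u.length ≤ J * J}) :=
    (List.finite_length_le Bool (J * J)).image _
  refine hfin.subset ?_
  intro N hN
  by_contra hcon
  apply hN
  show dist (pB N : ℝ) (1 / 2) < ε
  unfold pB
  rcases hd : decode₂ (List Bool) N with _ | u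
  · simp only [bias, biasR]
    norm_num
    exact hε
  · simp only [bias]
    rw [Real.dist_eq]
    have hu : encode u = N := mem_decode₂.1 hd
    have hlen : J * J < u.length := by
      by_contra hle
      exact hcon ⟨u, not_lt.1 hle, hu⟩
    have hs : J ≤ Nat.sqrt u.length := Nat.le_sqrt.2 hlen.le
    exact lt_of_le_of_lt (abs_biasR u) (hJ _ hs)

/-- the number of `true` -/
def trues (l : List Bool) : ℕ := (l.filter (fun b => b)).length

theorem trues_le (l : List Bool) : trues l ≤ l.length := List.length_filter_le _ _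

theorem prod_list (c : ℝ) (l : List Bool) :
    (l.map (fun b => 1 + c * sg b)).prod = (1 + c) ^ trues l * (1 - c) ^ (l.length - trues l) := by
  induction l with
  | nil => simp [trues]
  | cons b l ih =>
      have h := trues_le l
      rw [List.map_cons, List.prod_cons, ih]
      cases b with
      | true =>
          have h1 : trues (true :: l) = trues l + 1 := by simp [trues]
          rw [h1, List.length_cons, Nat.add_sub_add_right]
          simp only [sg, if_true]
          ring
      | false =>
          have h1 : trues (false :: l) = trues l := by simp [trues]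
          rw [h1, List.length_cons, Nat.succ_sub h, pow_succ]
          simp only [sg, Bool.false_eq_true, if_false]
          ring

theorem pow_bound {c : ℝ} (h0 : 0 ≤ c) (h1 : c ≤ 1) {a b j : ℕ} (hab : a + b = 2 * j)
    (ha : a ≤ j) : (1 + c) ^ a * (1 - c) ^ b ≤ (1 - c ^ 2) ^ j := by
  obtain ⟨d, rfl⟩ := Nat.exists_eq_add_of_le ha
  obtain rfl : b = a + 2 * d := by omega
  have e1 : (1 + c) ^ a * (1 - c) ^ (a + 2 * d) = (1 - c ^ 2) ^ a * ((1 - c) ^ 2) ^ d := by
    rw [pow_add, ← pow_mul, ← mul_assoc, ← mul_pow]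
    ring_nf
  rw [e1, pow_add]
  have h2 : 0 ≤ 1 - c ^ 2 := by nlinarith
  refine mul_le_mul_of_nonneg_left ?_ (pow_nonneg h2 _)
  apply pow_le_pow_left₀ (sq_nonneg _)
  nlinarith

/-- the bits of block `j` of `X`, the first one excluded -/
def xs (X : ℕ → Bool) (j : ℕ) : List Bool := (List.range (2 * j)).map (fun i => X (j * j + 1 + i))

/-- majority -/
def maj (j : ℕ) (l : List Bool) : Bool := decide (j < trues l)

theorem prod_le_of_error (X : ℕ → Bool) (j : ℕ) (h : maj j (xs X j) ≠ X (j * j)) :
    ((xs X j).map (fun b => 1 + bet1 j * sg (X (j * j)) * sg b)).prod ≤ (1 - bet1 j ^ 2) ^ j := by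
  rw [prod_list]
  have hlen : (xs X j).length = 2 * j := by simp [xs]
  have ht := trues_le (xs X j)
  rw [hlen] at ht ⊢
  have hb0 := (bet1_pos j).le
  have hb1 := (bet1_lt j).le
  cases hy : X (j * j) with
  | true =>
      rw [hy] at h
      have h1 : trues (xs X j) ≤ j := by
        by_contra hc
        apply h
        simp only [maj, decide_eq_true_eq]
        omega
      simp only [sg, if_true, mul_one]
      exact pow_bound hb0 hb1 (by omega) h1
  | false =>
      rw [hy] at h
      have h1 : j < trues (xs X j) := by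
        by_contra hc
        apply h
        simp only [maj, decide_eq_false_iff_not]
        exact hc
      simp only [sg, Bool.false_eq_true, if_false, mul_neg, mul_one, sub_neg_eq_add]
      rw [mul_comm, ← sub_eq_add_neg]
      exact pow_bound hb0 hb1 (by omega) (by omega)

/-- betting in block `j` -/
noncomputable def facE (j : ℕ) (w : List Bool) (b : Bool) : ℝ :=
  if Nat.sqrt w.length = j ∧ w.length ≠ j * j then (1 / 2) / pr (bias w) b else 1

theorem pr_bias_pos (w : List Bool) (b : Bool) : 0 < pr (bias w) b := by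
  have h1 := bet1_pos (Nat.sqrt w.length)
  have h2 := bet1_lt (Nat.sqrt w.length)
  unfold pr bias biasR
  simp only
  split_ifs
  · norm_num
  · cases w.getD (Nat.sqrt w.length * Nat.sqrt w.length) false <;>
      simp only [sg, if_true, Bool.false_eq_true, if_false] <;> linarith
  · norm_num
  · cases w.getD (Nat.sqrt w.length * Nat.sqrt w.length) false <;>
      simp only [sg, if_true, Bool.false_eq_true, if_false] <;> linarith

theorem list_range_prod (f : ℕ → ℝ) (n : ℕ) :
    ((List.range n).map f).prod = ∏ i ∈ Finset.range n, f i := by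
  induction n with
  | zero => simp
  | succ n ih =>
      rw [List.range_succ, List.map_append, List.prod_append, ih, Finset.prod_range_succ]
      simp

theorem sqrt_block (j i : ℕ) (h : i < 2 * j) : Nat.sqrt (j * j + 1 + i) = j := by
  symm
  rw [Nat.eq_sqrt]
  constructor
  · omega
  · have : (j + 1) * (j + 1) = j * j + 2 * j + 1 := by ring
    omega

theorem cap_facE (A : ℕ → Bool) (j : ℕ) :
    cap (facE j) A (posA A) (j * j + 1 + 2 * j) =
      (((xs (pathB A) j).map (fun b => 1 + bet1 j * sg (pathB A (j * j)) * sg b)).prod)⁻¹ := by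
  unfold cap
  rw [Finset.prod_range_add]
  have h1 : ∏ i ∈ Finset.range (j * j + 1), facE j (hist A (posA A) i) (A (posA A i)) = 1 := by
    apply Finset.prod_eq_one
    intro i hi
    rw [Finset.mem_range] at hi
    unfold facE
    rw [hist_posA, length_pre, if_neg]
    rintro ⟨h2, h3⟩
    have h4 : Nat.sqrt i * Nat.sqrt i ≤ i := Nat.sqrt_le i
    rw [h2] at h4
    omega
  rw [h1, one_mul]
  unfold xs
  rw [List.map_map, list_range_prod, ← Finset.prod_inv_distrib]
  refine Finset.prod_congr rfl fun i hi => ?_
  rw [Finset.mem_range] at hi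
  have h2 := sqrt_block j i hi
  unfold facE
  rw [hist_posA, length_pre, if_pos ⟨h2, by omega⟩]
  show 1 / 2 / pr (bias (pre A (j * j + 1 + i))) (pathB A (j * j + 1 + i)) = _
  have h3 : pr (bias (pre A (j * j + 1 + i))) (pathB A (j * j + 1 + i)) =
      (1 + bet1 j * sg (pathB A (j * j)) * sg (pathB A (j * j + 1 + i))) / 2 := by
    have hb : ((bias (pre A (j * j + 1 + i)) : unitInterval) : ℝ) =
        (1 + bet1 j * sg (pathB A (j * j))) / 2 := by
      show biasR (pre A (j * j + 1 + i)) = _
      unfold biasR
      have hne : ¬ (j * j = j * j + 1 + i) := by omega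
      rw [length_pre, h2, if_neg hne, pre_getD A _ _ (by omega)]
    unfold pr
    rw [hb]
    cases pathB A (j * j + 1 + i) with
    | true => simp [sg]
    | false =>
        have e1 : sg false = -1 := by simp [sg]
        rw [e1]
        simp only [Bool.false_eq_true, if_false]
        ring
  rw [h3]
  simp only [Function.comp_apply]
  have h4 : (1 + bet1 j * sg (pathB A (j * j)) * sg (pathB A (j * j + 1 + i))) ≠ 0 := by
    have := pr_bias_pos (pre A (j * j + 1 + i)) (pathB A (j * j + 1 + i))
    rw [h3] at this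
    linarith
  field_simp

/-- a wrong majority in block `j` is unlikely -/
theorem mu_error (j : ℕ) :
    mu pB {A | maj j (xs (pathB A) j) ≠ pathB A (j * j)} ≤
      ENNReal.ofReal ((1 - bet1 j ^ 2) ^ j) := by
  have hc0 : 0 < (1 - bet1 j ^ 2) ^ j := by
    apply pow_pos
    have := bet1_lt j
    have := bet1_pos j
    nlinarith
  have h := ville_run pB (fun w => some (encode w)) (facE j) (((1 - bet1 j ^ 2) ^ j)⁻¹)
    (inv_pos.2 hc0) (fun w b => by
      unfold facE
      split_ifs
      · exact (div_pos (by norm_num) (pr_bias_pos w b)).le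
      · exact zero_le_one) (by
      intro w n hn
      obtain rfl : encode w = n := Option.some.inj hn
      rw [pB_encode]
      unfold facE
      split_ifs
      · have h1 := (pr_bias_pos w true).ne'
        have h2 := (pr_bias_pos w false).ne'
        have e1 : pr (bias w) true * (1 / 2 / pr (bias w) true) = 1 / 2 := by field_simp
        have e2 : pr (bias w) false * (1 / 2 / pr (bias w) false) = 1 / 2 := by field_simp
        rw [e1, e2]
        norm_num
      · simp only [mul_one]
        exact (pr_add _).le)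
  rw [one_div, inv_inv] at h
  refine le_trans (measure_mono ?_) h
  intro A hA
  refine ⟨posA A, posA_inj A, j * j + 1 + 2 * j, fun k _ => ?_, ?_⟩
  · rw [hist_posA]; rfl
  · rw [cap_facE]
    apply inv_anti₀ _ (prod_le_of_error (pathB A) j hA)
    rw [prod_list]
    have h1 := bet1_pos j
    have h2 := bet1_lt j
    apply mul_pos <;> apply pow_pos <;> cases pathB A (j * j) <;>
      simp only [sg, if_true, Bool.false_eq_true, if_false] <;> linarith

theorem ae_maj : ∀ᵐ A ∂(mu pB), ∀ᶠ j in atTop, maj j (xs (pathB A) j) = pathB A (j * j) := by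
  have h : (∑' j, mu pB {A | maj j (xs (pathB A) j) ≠ pathB A (j * j)}) ≠ ⊤ := by
    refine ne_top_of_le_ne_top ?_ (ENNReal.tsum_le_tsum mu_error)
    exact summable_pow.tsum_ofReal_ne_top
  have h2 := ae_eventually_notMem h
  filter_upwards [h2] with A hA
  filter_upwards [hA] with j hj
  by_contra hc
  exact hj hc

end Pool.Agent.H837R3.KL
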