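import Mathlib
import Pool.Agent.H837R3.KL.Path

set_option autoImplicit false

namespace Pool.Agent.H837R3.KL

open MeasureTheory Filter Encodable

/-- the rule that reads the first bit of every block last -/
def G (s : Bool) (w : List Bool) : ℕ × Bool :=
  if w.length + 1 = (Nat.sqrt w.length + 1) * (Nat.sqrt w.length + 1) then
    (Nat.sqrt w.length * Nat.sqrt w.length,
      maj (Nat.sqrt w.length) (w.drop (Nat.sqrt w.length * Nat.sqrt w.length)) == s)
  else (w.length + 1, false)

theorem primrec_trues : Primrec trues := by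
  unfold trues
  have h : PrimrecPred (fun b : Bool => (b = true)) :=
    Primrec.eq.comp Primrec.id (Primrec.const true)
  have h2 := Primrec.list_length.comp (Primrec.listFilter h)
  refine h2.of_eq fun l => ?_
  congr 1
  apply List.filter_congr
  intro b _
  cases b <;> rfl

theorem primrec_G (s : Bool) : Primrec (G s) := by
  unfold G maj
  have hlen : Primrec (fun w : List Bool => w.length) := Primrec.list_length
  have hsq : Primrec (fun w : List Bool => Nat.sqrt w.length) := Primrec.nat_sqrt.comp hlen
  have hsq1 : Primrec (fun w : List Bool => Nat.sqrt w.length + 1) := Primrec.succ.comp hsq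
  have hpos : Primrec (fun w : List Bool => Nat.sqrt w.length * Nat.sqrt w.length) :=
    Primrec.nat_mul.comp hsq hsq
  refine Primrec.ite (Primrec.eq.comp (Primrec.succ.comp hlen) (Primrec.nat_mul.comp hsq1 hsq1))
    (Primrec.pair hpos ?_) (Primrec.pair (Primrec.succ.comp hlen) (Primrec.const false))
  have hdrop : Primrec (fun w : List Bool => w.drop (Nat.sqrt w.length * Nat.sqrt w.length)) :=
    Primrec.list_drop.comp hpos Primrec.id
  have hm : Primrec (fun w : List Bool =>
      decide (Nat.sqrt w.length < trues (w.drop (Nat.sqrt w.length * Nat.sqrt w.length)))) :=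
    (Primrec.nat_lt.comp hsq (primrec_trues.comp hdrop)).decide
  exact Primrec.beq.comp hm (Primrec.const s)

/-- places inspected by `G` -/
def posG (k : ℕ) : ℕ :=
  if k + 1 = (Nat.sqrt k + 1) * (Nat.sqrt k + 1) then Nat.sqrt k * Nat.sqrt k else k + 1

/-- the selection of `G` -/
def selG (X : ℕ → Bool) (s : Bool) (k : ℕ) : Bool :=
  decide (k + 1 = (Nat.sqrt k + 1) * (Nat.sqrt k + 1)) && (maj (Nat.sqrt k) (xs X (Nat.sqrt k)) == s)

theorem posG_inj : Function.Injective posG := by
  have key : ∀ k, k + 1 ≠ (Nat.sqrt k + 1) * (Nat.sqrt k + 1) → ∀ j, k + 1 ≠ j * j := by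
    intro k hk j hj
    have h1 : Nat.sqrt k * Nat.sqrt k ≤ k := Nat.sqrt_le k
    have h2 : k < (Nat.sqrt k + 1) * (Nat.sqrt k + 1) := Nat.lt_succ_sqrt k
    have h3 : Nat.sqrt k < j := by
      by_contra hc
      have : j * j ≤ Nat.sqrt k * Nat.sqrt k := Nat.mul_self_le_mul_self (not_lt.1 hc)
      omega
    have h4 : (Nat.sqrt k + 1) * (Nat.sqrt k + 1) ≤ j * j := Nat.mul_self_le_mul_self h3
    omega
  intro a b h
  unfold posG at h
  split_ifs at h with h1 h2 h2
  · have : Nat.sqrt a = Nat.sqrt b := Nat.mul_self_inj.1 h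
    rw [this] at h1
    omega
  · exact absurd h.symm (key b h2 _)
  · exact absurd h (key a h1 _)
  · omega

theorem length_hist (X : ℕ → Bool) (pos : ℕ → ℕ) (k : ℕ) : (hist X pos k).length = k := by
  simp [hist]

theorem drop_hist (X : ℕ → Bool) (j : ℕ) :
    (hist X posG (j * j + 2 * j)).drop (j * j) = xs X j := by
  apply List.ext_getElem
  · simp [hist, xs]
  · intro i h1 h2
    simp only [xs, List.length_map, List.length_range] at h2
    simp only [hist, List.getElem_drop, List.getElem_ofFn, xs, List.getElem_map,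
      List.getElem_range]
    have hs : Nat.sqrt (j * j + i) = j := by
      symm
      rw [Nat.eq_sqrt]
      constructor
      · omega
      · have : (j + 1) * (j + 1) = j * j + 2 * j + 1 := by ring
        omega
    have hp : posG (j * j + i) = j * j + 1 + i := by
      unfold posG
      rw [hs, if_neg]
      · ring
      · have : (j + 1) * (j + 1) = j * j + 2 * j + 1 := by ring
        omega
    rw [hp]

theorem G_hist (X : ℕ → Bool) (s : Bool) (k : ℕ) : G s (hist X posG k) = (posG k, selG X s k) := by
  unfold G posG selG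
  rw [length_hist]
  split_ifs with h
  · have hk : k = Nat.sqrt k * Nat.sqrt k + 2 * Nat.sqrt k := by
      have : (Nat.sqrt k + 1) * (Nat.sqrt k + 1) =
        Nat.sqrt k * Nat.sqrt k + 2 * Nat.sqrt k + 1 := by ring
      omega
    have h2 := drop_hist X (Nat.sqrt k)
    rw [← hk] at h2
    have h3 : hist X (fun k => if k + 1 = (Nat.sqrt k + 1) * (Nat.sqrt k + 1)
        then Nat.sqrt k * Nat.sqrt k else k + 1) k = hist X posG k := rfl
    rw [h3, h2]
    simp [h]
  · simp [h]

/-- The law of large numbers for the subsequence selected by a rule. -/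
def Sto (X : ℕ → Bool) : Prop :=
  ∀ f : List Bool →. ℕ × Bool, Partrec f →
    ∀ pos : ℕ → ℕ, ∀ sel : ℕ → Bool,
      (∀ k : ℕ, f (List.ofFn (fun i : Fin k => X (pos i))) = Part.some (pos k, sel k)) →
      Function.Injective pos →
      Set.Infinite {k : ℕ | sel k = true} →
      Filter.Tendsto
        (fun m : ℕ =>
          (((Finset.range m).filter
            (fun j => X (pos (Nat.nth (fun k => sel k = true) j)) = true)).card : ℝ) / (m : ℝ))
        Filter.atTop (nhds (1 / 2 : ℝ))

theorem not_sto (X : ℕ → Bool) (hX : ∀ᶠ j in atTop, maj j (xs X j) = X (j * j)) : ¬ Sto X := by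
  intro hS
  -- one of the two answers occurs infinitely often
  obtain ⟨s, hs⟩ : ∃ s : Bool, Set.Infinite {j : ℕ | maj j (xs X j) = s} := by
    by_contra hcon
    push Not at hcon
    have h1 := hcon true
    have h2 := hcon false
    have h3 := h1.union h2
    apply Set.infinite_univ (α := ℕ)
    refine h3.subset ?_
    intro j _
    cases hj : maj j (xs X j)
    · right; exact hj
    · left; exact hj
  have hsq : ∀ j : ℕ, Nat.sqrt (j * j + 2 * j) = j := by
    intro j
    symm
    rw [Nat.eq_sqrt]
    constructor
    · omega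
    · have : (j + 1) * (j + 1) = j * j + 2 * j + 1 := by ring
      omega
  have hend : ∀ j : ℕ, j * j + 2 * j + 1 = (j + 1) * (j + 1) := fun j => by ring
  have hinf : Set.Infinite {k : ℕ | selG X s k = true} := by
    have h1 : Set.InjOn (fun j : ℕ => j * j + 2 * j) {j : ℕ | maj j (xs X j) = s} := by
      intro a _ b _ hab
      have := congrArg Nat.sqrt hab
      simpa [hsq] using this
    refine (hs.image h1).mono ?_
    rintro _ ⟨j, hj, rfl⟩
    have hj' : maj j (xs X j) = s := hj
    simp only [selG, Set.mem_ofPred_eq, hsq, hend, hj']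
    simp
  have hlim := hS (fun w => Part.some (G s w)) (Primrec.to_comp (primrec_G s)).partrec posG
    (selG X s) (fun k => by
      have := G_hist X s k
      simp only [hist] at this
      rw [this]) posG_inj hinf
  -- eventually all selected bits are equal to s
  obtain ⟨J, hJ⟩ := eventually_atTop.1 hX
  set σ : ℕ → ℕ := Nat.nth (fun k => selG X s k = true) with hσ
  have hmono : StrictMono σ := Nat.nth_strictMono hinf
  have hev : ∀ᶠ m in atTop, X (posG (σ m)) = s := by
    filter_upwards [hmono.tendsto_atTop.eventually_ge_atTop ((J + 1) * (J + 1))] with m hm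
    have h1 : selG X s (σ m) = true := Nat.nth_mem_of_infinite hinf m
    simp only [selG, Bool.and_eq_true, decide_eq_true_eq, beq_iff_eq] at h1
    obtain ⟨h2, h3⟩ := h1
    have h4 : J ≤ Nat.sqrt (σ m) := by
      rw [Nat.le_sqrt]
      calc J * J ≤ (J + 1) * (J + 1) := Nat.mul_self_le_mul_self (Nat.le_succ J)
        _ ≤ σ m := hm
    have h5 := hJ _ h4
    unfold posG
    rw [if_pos h2, ← h5, h3]
  have hces : Tendsto (fun m : ℕ => (m : ℝ)⁻¹ * ∑ j ∈ Finset.range m, sg (X (posG (σ j))))
      atTop (nhds (sg s)) := by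
    apply Filter.Tendsto.cesaro
    refine tendsto_const_nhds.congr' ?_
    filter_upwards [hev] with m hm
    rw [hm]
  have hlim2 : Tendsto (fun m : ℕ => (m : ℝ)⁻¹ * ∑ j ∈ Finset.range m, sg (X (posG (σ j))))
      atTop (nhds (2 * (1 / 2) - 1)) := by
    refine ((hlim.const_mul 2).sub_const 1).congr' ?_
    filter_upwards [eventually_gt_atTop 0] with m hm
    have hm' : (m : ℝ) ≠ 0 := by exact_mod_cast hm.ne'
    rw [sum_sg (fun j => X (posG (σ j))) m]
    field_simp
  have := tendsto_nhds_unique hces hlim2
  cases s <;> simp only [sg, if_true, Bool.false_eq_true, if_false] at this <;> norm_num at this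

/-- the rule given by a code -/
noncomputable def ruleOf (c : Nat.Partrec.Code) (w : List Bool) : Option (ℕ × Bool) := by
  classical exact
  if h : (c.eval (encode w)).Dom then decode ((c.eval (encode w)).get h) else none

theorem ruleOf_eq (f : List Bool →. ℕ × Bool) (hf : Partrec f) :
    ∃ c : Nat.Partrec.Code, ∀ w x, f w = Part.some x → ruleOf c w = some x := by
  obtain ⟨c, hc⟩ := Nat.Partrec.Code.exists_code.1 hf
  refine ⟨c, fun w x hx => ?_⟩
  have h1 : c.eval (encode w) = Part.some (encode x) := by
    rw [hc]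
    simp [hx]
  unfold ruleOf
  have h2 : (c.eval (encode w)).Dom := by rw [h1]; trivial
  rw [dif_pos h2]
  have h3 : (c.eval (encode w)).get h2 = encode x := by
    simp [h1]
  rw [h3, encodek]

theorem sto_of_fair (A : ℕ → Bool) (hA : ∀ c : Nat.Partrec.Code, Fair (ruleOf c) A) : Sto A := by
  intro f hf pos sel hrun hinj hinf
  obtain ⟨c, hc⟩ := ruleOf_eq f hf
  exact hA c pos sel (fun k => hc _ _ (hrun k)) hinj hinf

/-- There is a sequence `A` that is KL-stochastic, while the sequence `pathB A`, which is selected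
from `A` by the rule `w ↦ encode w`, is not. -/
theorem exists_A : ∃ A : ℕ → Bool, Sto A ∧ ¬ Sto (pathB A) := by
  have h1 : ∀ᵐ A ∂(mu pB), ∀ c : Nat.Partrec.Code, Fair (ruleOf c) A := by
    rw [ae_all_iff]
    intro c
    exact ae_fair pB tendsto_pB (ruleOf c)
  obtain ⟨A, hA1, hA2⟩ := (h1.and ae_maj).exists
  exact ⟨A, sto_of_fair A hA1, not_sto _ hA2⟩

end Pool.Agent.H837R3.KL
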